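import Pool.Agent.H560.SQ.StmC
import Pool.Agent.H553.SQ.CntSq

/-!
# `S_cntR` of helper560: the number of sifted polynomials around a square
-/

set_option autoImplicit false

namespace Pool.Agent.H350.SQ

open Polynomial Filter
open scoped Classical
open Pool.Agent.H985.Chow.Asm (G G_inj G_surj)
open Pool.Agent.H985.Par (Sft)
open Pool.Agent.H694.Typ (Mn mem_Mn card_Mn PU)
open Pool.Agent.H560.SI (Itv)
open Pool.Agent.H560.SQ (VV)
open Pool.Agent.H553.SQ (Dl mem_Dl card_Dl zero_Dl deg_mul_lt G_def G_degree sqf_G)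

section gen

variable {K : Type} [Field K] [Fintype K]

/-- the pairs `(x, y)` with `y ≠ 0` and a common factor `P` of `A + x` and `y` -/
theorem card_common (A P : K[X]) {a b j : ℕ} (hb : j < b) (hab : b ≤ a) (hP : P ∈ Mn K j) :
    (((Dl K a) ×ˢ (Dl K b)).filter (fun w => P ∣ A + w.1 ∧ P ∣ w.2)).card ≤
      Fintype.card K ^ (a - j) * Fintype.card K ^ (b - j) := by
  rw [mem_Mn] at hP
  obtain ⟨hP, hj⟩ := hP
  have hdiv : A %ₘ P + P * (A /ₘ P) = A := modByMonic_add_div A P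
  have hmod : (A %ₘ P).degree < (a : WithBot ℕ) := by
    refine (degree_modByMonic_lt A hP).trans ?_
    rw [degree_eq_natDegree hP.ne_zero, hj]
    exact_mod_cast lt_of_lt_of_le hb hab
  have hsub : ((Dl K a) ×ˢ (Dl K b)).filter (fun w => P ∣ A + w.1 ∧ P ∣ w.2) ⊆
      ((Dl K (a - j)) ×ˢ (Dl K (b - j))).image (fun w => (P * w.1 - A %ₘ P, P * w.2)) := by
    rintro ⟨x, y⟩ hw
    rw [Finset.mem_filter, Finset.mem_product, mem_Dl, mem_Dl] at hw
    obtain ⟨⟨h1, h2⟩, ⟨u, hu⟩, ⟨v, hv⟩⟩ := hw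
    simp only at h1 h2 hu hv
    rw [Finset.mem_image]
    have e1 : P * (u - A /ₘ P) = x + A %ₘ P := by linear_combination -hu - hdiv
    refine ⟨(u - A /ₘ P, v), ?_, ?_⟩
    · rw [Finset.mem_product, mem_Dl, mem_Dl]
      refine ⟨?_, ?_⟩
      · change (u - A /ₘ P).degree < _
        rw [← deg_mul_lt hP hj (by omega), e1]
        exact (degree_add_le _ _).trans_lt (max_lt h1 hmod)
      · change v.degree < _
        rw [← deg_mul_lt hP hj (by omega), ← hv]
        exact h2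
    · simp only [e1, add_sub_cancel_right, ← hv]
  refine (Finset.card_le_card hsub).trans (Finset.card_image_le.trans ?_)
  rw [Finset.card_product, card_Dl, card_Dl]

theorem geo {q z b : ℕ} (hq : 2 ≤ q) :
    ∑ j ∈ Finset.Ioo z b, q ^ (b - j) ≤ q ^ (b - z) := by
  have h1 : ∑ k ∈ (Finset.Ioo z b).image (fun j => b - j), q ^ k = ∑ j ∈ Finset.Ioo z b, q ^ (b - j) := by
    apply Finset.sum_image
    intro j hj j' hj' h
    rw [Finset.mem_coe, Finset.mem_Ioo] at hj hj'
    simp only at h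
    omega
  rw [← h1]
  apply le_of_lt
  apply Nat.geomSum_lt hq
  intro k hk
  rw [Finset.mem_image] at hk
  obtain ⟨j, hj, rfl⟩ := hk
  rw [Finset.mem_Ioo] at hj
  omega

end gen

section main

variable {K : Type} [Field K] [Fintype K] [CharP K 2]

/-- the interval around the square in terms of pairs -/
theorem card_itv (A : K[X]) {h : ℕ} (hA : h ≤ 2 * A.natDegree) (hm : A.Monic) (p : K[X] → Prop)
    [DecidablePred p] :
    ((Itv K (2 * A.natDegree) h (A ^ 2)).filter p).card =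
      (((Dl K ((h + 1) / 2)) ×ˢ (Dl K (h / 2))).filter (fun w => p (G (A + w.1) w.2))).card := by
  have hmem : ∀ f, f ∈ (Itv K (2 * A.natDegree) h (A ^ 2)).filter p ↔
      (f - A ^ 2).degree < (h : WithBot ℕ) ∧ p f := by
    intro f
    unfold Itv
    rw [Finset.mem_filter, Finset.mem_filter, mem_Mn]
    constructor
    · rintro ⟨⟨_, k2⟩, k3⟩
      exact ⟨k2, k3⟩
    · rintro ⟨k2, k3⟩
      have k4 : (f - A ^ 2).degree < (A ^ 2).degree := by
        rw [degree_eq_natDegree (hm.pow 2).ne_zero, natDegree_pow]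
        exact k2.trans_le (by exact_mod_cast hA)
      have k5 : f = A ^ 2 + (f - A ^ 2) := by ring
      refine ⟨⟨⟨?_, ?_⟩, k2⟩, k3⟩
      · rw [k5]
        exact (hm.pow 2).add_of_left k4
      · rw [k5, natDegree_add_eq_left_of_degree_lt k4, natDegree_pow]
  symm
  apply Finset.card_bij (fun w _ => G (A + w.1) w.2)
  · rintro ⟨x, y⟩ hp
    rw [Finset.mem_filter, Finset.mem_product, mem_Dl, mem_Dl] at hp
    obtain ⟨⟨h1, h2⟩, h5⟩ := hp
    simp only at h1 h2 h5
    rw [hmem]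
    refine ⟨?_, h5⟩
    have e1 : G (A + x) y - A ^ 2 = G x y := by
      rw [G_def, G_def, CharTwo.add_sq]
      ring
    simp only [e1]
    exact (G_degree h x y).2 ⟨h1, h2⟩
  · rintro ⟨x, y⟩ _ ⟨x', y'⟩ _ he
    have := G_inj he
    simp only [add_right_inj] at this
    rw [this.1, this.2]
  · intro f hf
    rw [hmem] at hf
    obtain ⟨h1, h2⟩ := hf
    obtain ⟨x, y, hxy⟩ := G_surj (f - A ^ 2)
    have e1 : f = G (A + x) y := by
      have e2 : f = A ^ 2 + G x y := by rw [hxy]; ring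
      rw [e2, G_def, G_def, CharTwo.add_sq]
      ring
    rw [← hxy, G_degree] at h1
    rw [e1] at h2
    refine ⟨(x, y), ?_, e1.symm⟩
    rw [Finset.mem_filter, Finset.mem_product, mem_Dl, mem_Dl]
    exact ⟨⟨h1.1, h1.2⟩, h2⟩

omit [CharP K 2] in
theorem card_pairs (a b : ℕ) (p : K[X] → K[X] → Prop) :
    (((Dl K a) ×ˢ (Dl K b)).filter (fun w => p w.1 w.2)).card =
      ∑ y ∈ Dl K b, ((Dl K a).filter (fun x => p x y)).card := by
  rw [Finset.card_filter, Finset.sum_product_right]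
  apply Finset.sum_congr rfl
  intro y _
  rw [Finset.card_filter]

theorem card_win (A y : K[X]) (a z : ℕ) :
    {t : K[X] | t.degree < (a : WithBot ℕ) ∧ Sft z ((A ^ 2 + X * y ^ 2) + t ^ 2)}.ncard =
      ((Dl K a).filter (fun x => Sft z (G (A + x) y))).card := by
  rw [← Set.ncard_coe_finset]
  congr 1
  ext t
  have e1 : G (A + t) y = (A ^ 2 + X * y ^ 2) + t ^ 2 := by
    rw [G_def, CharTwo.add_sq]
    ring
  rw [Finset.coe_filter]
  constructor
  · rintro ⟨h1, h2⟩
    refine ⟨mem_Dl.2 h1, ?_⟩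
    rw [e1]
    exact h2
  · rintro ⟨h1, h2⟩
    rw [e1] at h2
    exact ⟨mem_Dl.1 h1, h2⟩

/-- the elements which are not squarefree -/
theorem card_nsq (A : K[X]) {h z : ℕ} (hz : z ≤ h / 2) :
    (((Dl K ((h + 1) / 2)) ×ˢ (Dl K (h / 2))).filter
      (fun w => Sft z (G (A + w.1) w.2) ∧ ¬ Squarefree (G (A + w.1) w.2))).card ≤
        2 * Fintype.card K ^ (h - z) := by
  have hq : 2 ≤ Fintype.card K := Fintype.one_lt_card
  set q := Fintype.card K with hqd
  set a := (h + 1) / 2 with ha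
  set b := h / 2 with hb
  have hsub : ((Dl K a) ×ˢ (Dl K b)).filter
      (fun w => Sft z (G (A + w.1) w.2) ∧ ¬ Squarefree (G (A + w.1) w.2)) ⊆
      ((Dl K a) ×ˢ {(0 : K[X])}) ∪ (Finset.Ioo z b).biUnion (fun j => (Mn K j).biUnion (fun P =>
        ((Dl K a) ×ˢ (Dl K b)).filter (fun w => P ∣ A + w.1 ∧ P ∣ w.2))) := by
    rintro ⟨x, y⟩ hw
    rw [Finset.mem_filter, Finset.mem_product] at hw
    obtain ⟨⟨h1, h2⟩, h3, h4⟩ := hw
    simp only at h1 h2 h3 h4
    rw [Finset.mem_union]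
    by_cases hy : y = 0
    · left
      rw [Finset.mem_product, Finset.mem_singleton]
      exact ⟨h1, hy⟩
    · right
      rw [sqf_G] at h4
      -- a common irreducible factor
      have h5 : ¬ IsUnit (EuclideanDomain.gcd (A + x) y) := by
        intro hu
        exact h4 (EuclideanDomain.gcd_isUnit_iff.1 hu)
      have h6 : EuclideanDomain.gcd (A + x) y ≠ 0 := by
        intro h0
        exact hy (EuclideanDomain.gcd_eq_zero_iff.1 h0).2
      obtain ⟨P, hPm, hPi, hPd⟩ := exists_monic_irreducible_factor _ h5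
      have hP1 : P ∣ A + x := hPd.trans (EuclideanDomain.gcd_dvd_left _ _)
      have hP2 : P ∣ y := hPd.trans (EuclideanDomain.gcd_dvd_right _ _)
      have hPG : P ∣ G (A + x) y := by
        rw [G_def]
        exact dvd_add ((dvd_pow hP1 two_ne_zero)) ((dvd_pow hP2 two_ne_zero).mul_left X)
      have h7 : z < P.natDegree := h3 P hPm hPi hPG
      have h8 : P.natDegree < b := by
        have h9 := natDegree_le_of_dvd hP2 hy
        have h10 := (natDegree_lt_iff_degree_lt hy).2 (mem_Dl.1 h2)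
        omega
      rw [Finset.mem_biUnion]
      refine ⟨P.natDegree, Finset.mem_Ioo.2 ⟨h7, h8⟩, ?_⟩
      rw [Finset.mem_biUnion]
      refine ⟨P, mem_Mn.2 ⟨hPm, rfl⟩, ?_⟩
      rw [Finset.mem_filter, Finset.mem_product]
      exact ⟨⟨h1, h2⟩, hP1, hP2⟩
  have hab : b ≤ a := by omega
  have h1 : ((Finset.Ioo z b).biUnion (fun j => (Mn K j).biUnion (fun P =>
        ((Dl K a) ×ˢ (Dl K b)).filter (fun w => P ∣ A + w.1 ∧ P ∣ w.2)))).card ≤ q ^ (h - z) := by
    refine Finset.card_biUnion_le.trans ?_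
    have h2 : ∀ j ∈ Finset.Ioo z b, ((Mn K j).biUnion (fun P =>
        ((Dl K a) ×ˢ (Dl K b)).filter (fun w => P ∣ A + w.1 ∧ P ∣ w.2))).card ≤
          q ^ a * q ^ (b - j) := by
      intro j hj
      rw [Finset.mem_Ioo] at hj
      refine Finset.card_biUnion_le.trans ?_
      refine (Finset.sum_le_sum fun P hP => card_common A P hj.2 hab hP).trans ?_
      rw [Finset.sum_const, card_Mn, smul_eq_mul, ← mul_assoc, ← pow_add]
      apply le_of_eq
      congr 2
      omega
    refine (Finset.sum_le_sum h2).trans ?_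
    rw [← Finset.mul_sum]
    refine (Nat.mul_le_mul_left _ (geo hq)).trans ?_
    rw [← pow_add]
    apply Nat.pow_le_pow_right (by omega)
    omega
  have h2 : ((Dl K a) ×ˢ {(0 : K[X])}).card ≤ q ^ (h - z) := by
    rw [Finset.card_product, Finset.card_singleton, mul_one, card_Dl]
    apply Nat.pow_le_pow_right (by omega)
    omega
  have h3 := (Finset.card_le_card hsub).trans (Finset.card_union_le _ _)
  omega

end main

/-- Task CNTR. -/
theorem cntR (hs : Pool.Agent.H560.SQ.S_siv) (hv : Pool.Agent.H560.SI.S_vl) :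
    Pool.Agent.H560.SQ.S_cntR := by
  intro K _ _ _ ε hε
  obtain ⟨A₀, hA₀⟩ := hs K ε hε
  obtain ⟨c, hc, hvl⟩ := hv K
  have hq2 : 2 ≤ Fintype.card K := Fintype.one_lt_card
  have hqR : (2 : ℝ) ≤ (Fintype.card K : ℝ) := by exact_mod_cast hq2
  have hq0 : (0 : ℝ) < (Fintype.card K : ℝ) := by linarith
  refine ⟨1 / (2 * ((A₀ : ℝ) + 1)), by positivity, fun κ hκ hκ0 => ?_⟩
  -- large `z`
  have hzlim : ∀ᶠ z : ℕ in atTop, (z : ℝ) ^ 1 / 2 ^ z < ε * c / 2 :=
    (tendsto_pow_const_div_const_pow_of_one_lt 1 (show (1 : ℝ) < 2 by norm_num)).eventually_lt_const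
      (by positivity)
  obtain ⟨z₀, hz₀⟩ := eventually_atTop.1 hzlim
  obtain ⟨h₀, hh₀⟩ := exists_nat_ge (((z₀ : ℝ) + 1) / κ)
  refine ⟨h₀, fun h hh A hm hA => ?_⟩
  have hhR : (z₀ : ℝ) + 1 ≤ κ * h := by
    have h1 : ((z₀ : ℝ) + 1) / κ ≤ h := hh₀.trans (by exact_mod_cast hh)
    rwa [div_le_iff₀ hκ, mul_comm] at h1
  set z := ⌊κ * (h : ℝ)⌋₊ with hz
  have hzge : z₀ + 1 ≤ z := Nat.le_floor (by push_cast; exact hhR)
  have hz1 : 1 ≤ z := by omega
  have hzle : (z : ℝ) ≤ κ * h := Nat.floor_le (by positivity)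
  have hA1 : (0 : ℝ) < (A₀ : ℝ) + 1 := by positivity
  have hzA : ((A₀ : ℝ) + 1) * z ≤ h / 2 := by
    calc ((A₀ : ℝ) + 1) * z ≤ ((A₀ : ℝ) + 1) * (1 / (2 * ((A₀ : ℝ) + 1)) * h) := by
          apply mul_le_mul_of_nonneg_left _ hA1.le
          exact hzle.trans (mul_le_mul_of_nonneg_right hκ0 (Nat.cast_nonneg _))
      _ = h / 2 := by field_simp
  have hzN : 2 * ((A₀ + 1) * z) ≤ h := by
    have h1 : ((2 * ((A₀ + 1) * z) : ℕ) : ℝ) ≤ (h : ℝ) := by
      push_cast
      linarith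
    exact_mod_cast h1
  have hzA2 : A₀ * z ≤ (h + 1) / 2 := by
    have : (A₀ + 1) * z = A₀ * z + z := by ring
    omega
  have hzb : z ≤ h / 2 := by
    have : (A₀ + 1) * z = A₀ * z + z := by ring
    omega
  have hVV : c / z ≤ VV K z := hvl z hz1
  have hz0 : (0 : ℝ) < z := by exact_mod_cast hz1
  have hV0 : 0 < VV K z := lt_of_lt_of_le (by positivity) hVV
  have hqh : (Fintype.card K : ℝ) ^ h =
      (Fintype.card K : ℝ) ^ ((h + 1) / 2) * (Fintype.card K : ℝ) ^ (h / 2) := by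
    rw [← pow_add]
    congr 1
    omega
  refine ⟨?_, ?_⟩
  · rw [card_itv A hA hm, card_pairs ((h + 1) / 2) (h / 2) (fun x y => Sft z (G (A + x) y))]
    push_cast
    have h1 : ∀ y ∈ Dl K (h / 2),
        (1 - ε) * VV K z * (Fintype.card K : ℝ) ^ ((h + 1) / 2) ≤
          (((Dl K ((h + 1) / 2)).filter (fun x => Sft z (G (A + x) y))).card : ℝ) ∧
        (((Dl K ((h + 1) / 2)).filter (fun x => Sft z (G (A + x) y))).card : ℝ) ≤
          (1 + ε) * VV K z * (Fintype.card K : ℝ) ^ ((h + 1) / 2) := by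
      intro y _
      have h2 := hA₀ ((h + 1) / 2) z (A ^ 2 + X * y ^ 2) hz1 hzA2
      rw [card_win] at h2
      exact ⟨h2.1, h2.2.1⟩
    have h2 := Finset.sum_le_sum fun y hy => (h1 y hy).1
    have h3 := Finset.sum_le_sum fun y hy => (h1 y hy).2
    rw [Finset.sum_const, card_Dl, nsmul_eq_mul] at h2 h3
    push_cast at h2 h3
    rw [hqh, abs_le]
    constructor
    · nlinarith
    · nlinarith
  · have h1 := card_nsq A (h := h) hzb
    rw [card_itv A hA hm (fun f => Sft z f ∧ ¬ Squarefree f)]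
    have h2 : ((((Dl K ((h + 1) / 2)) ×ˢ (Dl K (h / 2))).filter
      (fun w => Sft z (G (A + w.1) w.2) ∧ ¬ Squarefree (G (A + w.1) w.2))).card : ℝ) ≤
        2 * (Fintype.card K : ℝ) ^ (h - z) := by exact_mod_cast h1
    refine h2.trans ?_
    have h3 : (Fintype.card K : ℝ) ^ h =
        (Fintype.card K : ℝ) ^ (h - z) * (Fintype.card K : ℝ) ^ z := by
      rw [← pow_add]
      congr 1
      omega
    rw [h3]
    have h4 : 2 ≤ ε * VV K z * (Fintype.card K : ℝ) ^ z := by
      have h5 := hz₀ z (by omega)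
      rw [pow_one, div_lt_iff₀ (by positivity)] at h5
      have h6 : (2 : ℝ) ^ z ≤ (Fintype.card K : ℝ) ^ z := pow_le_pow_left₀ (by norm_num) hqR z
      have h7 : ε * (c / z) * 2 ^ z ≤ ε * VV K z * (Fintype.card K : ℝ) ^ z := by
        apply mul_le_mul _ h6 (by positivity) (by positivity)
        exact mul_le_mul_of_nonneg_left hVV hε.le
      have h8 : 2 ≤ ε * (c / z) * 2 ^ z := by
        have h9 : ε * (c / z) * 2 ^ z = ε * c * 2 ^ z / z := by ring
        rw [h9, le_div_iff₀ hz0]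
        linarith
      linarith
    have h5 : 0 < (Fintype.card K : ℝ) ^ (h - z) := by positivity
    calc 2 * (Fintype.card K : ℝ) ^ (h - z) ≤
        (ε * VV K z * (Fintype.card K : ℝ) ^ z) * (Fintype.card K : ℝ) ^ (h - z) :=
          mul_le_mul_of_nonneg_right h4 h5.le
      _ = _ := by ring

end Pool.Agent.H350.SQ
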